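import Pool.Agent.Q237.LR.Stm2

/-!
# Project LR, second theorem, job MSR: measurability
-/

set_option autoImplicit false

namespace Pool.Agent.Q277.LR2

open MeasureTheory ProbabilityTheory Set H10PL Pool.Agent.Q237.LR2

variable {d : ℕ}

theorem am_meas (T0 : (Fin d → ℤ) → (Fin d → ℤ) → ℝ) (κ : (Fin d → ℤ) → ℝ) (ρ : ℝ)
    (Λ : Finset (Fin d → ℤ)) (i j : Λ) : Measurable fun p : Pt d => Am T0 κ ρ Λ p.2.2 i j := by
  have hsg : Measurable sg := measurable_of_finite _
  unfold Am Kr Kf
  split_ifs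
  · refine measurable_const.add (Measurable.mul_const ?_ _)
    exact hsg.comp ((measurable_pi_apply _).comp (measurable_snd.comp measurable_snd))
  · exact measurable_const

theorem cut_meas (T0 : (Fin d → ℤ) → (Fin d → ℤ) → ℝ) (κ : (Fin d → ℤ) → ℝ) (ρ : ℝ)
    (Λ : Finset (Fin d → ℤ)) (x i j : Λ) :
    Measurable fun p : Pt d => cut (Am T0 κ ρ Λ p.2.2) x i j := by
  unfold cut
  split_ifs
  · exact measurable_const
  · exact am_meas T0 κ ρ Λ i j

theorem pot_meas (Λ : Finset (Fin d → ℤ)) (i : Λ) :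
    Measurable fun p : Pt d => p.2.1 (i : Fin d → ℤ) :=
  (measurable_pi_apply _).comp (measurable_fst.comp measurable_snd)

theorem msr : S_MSR := by
  intro d T0 κ ρ η Λ x y
  refine ⟨?_, ?_, ?_⟩
  · unfold PL
    by_cases hx : x ∈ Λ
    · simp only [dif_pos hx]
      exact measurable_Pm (fun p : Pt d => Am T0 κ ρ Λ p.2.2) (am_meas T0 κ ρ Λ)
        (fun p => fun i : Λ => p.2.1 i) (pot_meas Λ) (fun p => p.1) measurable_fst η _ _
    · simp only [dif_neg hx]
      exact measurable_const
  · unfold SL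
    by_cases hx : x ∈ Λ
    · simp only [dif_pos hx]
      refine Complex.measurable_im.comp ?_
      unfold Sg
      refine Finset.measurable_sum _ fun i _ => Finset.measurable_sum _ fun j _ => ?_
      refine ((Complex.measurable_ofReal.comp (am_meas T0 κ ρ Λ _ i)).mul ?_).mul
        (Complex.measurable_ofReal.comp (am_meas T0 κ ρ Λ _ j))
      exact measurable_Gm (fun p : Pt d => cut (Am T0 κ ρ Λ p.2.2) ⟨x, hx⟩)
        (cut_meas T0 κ ρ Λ ⟨x, hx⟩) (fun p => fun i : Λ => p.2.1 i) (pot_meas Λ)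
        (fun p => p.1) measurable_fst η i j
    · simp only [dif_neg hx]
      exact measurable_const
  · unfold CL
    by_cases hx : x ∈ Λ
    · by_cases hy : y ∈ Λ
      · simp only [dif_pos hx, dif_pos hy]
        exact measurable_Pm (fun p : Pt d => cut (Am T0 κ ρ Λ p.2.2) ⟨x, hx⟩)
          (cut_meas T0 κ ρ Λ ⟨x, hx⟩) (fun p => fun i : Λ => p.2.1 i) (pot_meas Λ)
          (fun p => p.1) measurable_fst η _ _
      · simp only [dif_pos hx, dif_neg hy]
        exact measurable_const
    · simp only [dif_neg hx]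
      exact measurable_const

end Pool.Agent.Q277.LR2
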