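import Pool.Agent.Q237.LR.Stm

/-!
# Project LR (helper237): job CUT, almost surely there are good cut-offs
-/

set_option autoImplicit false

namespace Pool.Agent.Q277.LR

open MeasureTheory ProbabilityTheory H10PL Filter Topology
open Pool.Agent.H999R5.Inj (GX gm qf)
open Pool.Agent.Q237.LR
open scoped Matrix

/-- the bound of the probabilities tends to zero -/
theorem tends_p (d m : ℕ) (θ K N2 C ε : ℝ) (hm : 1 ≤ m) (hθ : 0 < θ)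
    (hdm : (d : ℝ) < θ * ((m - 1 : ℕ) : ℝ)) (hK : 0 ≤ K) (hN : 0 ≤ N2) :
    Tendsto (fun R : ℕ => C * (((R : ℝ) ^ (-θ) * (K + 1)) ^ (m - 1) *
      (2 * (4 * (R : ℝ) + 1) ^ d * (N2 + 1))) ^ (1 / (2 * m : ℝ)) / ε) atTop (𝓝 0) := by
  have h0 : Tendsto (fun R : ℕ => ((R : ℝ) ^ (-θ) * (K + 1)) ^ (m - 1) *
      (2 * (4 * (R : ℝ) + 1) ^ d * (N2 + 1))) atTop (𝓝 0) := by
    have h1 : Tendsto (fun R : ℕ => ((K + 1) ^ (m - 1) * 2 * 5 ^ d * (N2 + 1)) *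
        (R : ℝ) ^ (-(θ * ((m - 1 : ℕ) : ℝ) - d))) atTop (𝓝 0) := by
      have h2 := (tendsto_rpow_neg_atTop (y := θ * ((m - 1 : ℕ) : ℝ) - d) (by linarith)).comp
        tendsto_natCast_atTop_atTop
      have h3 := h2.const_mul ((K + 1) ^ (m - 1) * 2 * 5 ^ d * (N2 + 1))
      rw [mul_zero] at h3
      exact h3
    refine squeeze_zero' ?_ ?_ h1
    · filter_upwards with R
      have : (0 : ℝ) ≤ (R : ℝ) ^ (-θ) := Real.rpow_nonneg (by positivity) _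
      positivity
    · filter_upwards [eventually_ge_atTop 1] with R hR
      have hR1 : (1 : ℝ) ≤ R := by exact_mod_cast hR
      have hR0 : (0 : ℝ) < R := by linarith
      have e1 : (R : ℝ) ^ (-(θ * ((m - 1 : ℕ) : ℝ) - d)) = ((R : ℝ) ^ (-θ)) ^ (m - 1) * (R : ℝ) ^ d := by
        rw [← Real.rpow_mul_natCast hR0.le, ← Real.rpow_natCast (R : ℝ) d, ← Real.rpow_add hR0]
        congr 1
        ring
      rw [e1, mul_pow]
      have h4 : (4 * (R : ℝ) + 1) ^ d ≤ (5 * R) ^ d := by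
        gcongr
        linarith
      have h5 : (0 : ℝ) ≤ ((R : ℝ) ^ (-θ)) ^ (m - 1) * (K + 1) ^ (m - 1) := by
        have : (0 : ℝ) ≤ (R : ℝ) ^ (-θ) := Real.rpow_nonneg hR0.le _
        positivity
      calc ((R : ℝ) ^ (-θ)) ^ (m - 1) * (K + 1) ^ (m - 1) * (2 * (4 * (R : ℝ) + 1) ^ d * (N2 + 1))
          ≤ ((R : ℝ) ^ (-θ)) ^ (m - 1) * (K + 1) ^ (m - 1) * (2 * (5 * (R : ℝ)) ^ d * (N2 + 1)) := by
            refine mul_le_mul_of_nonneg_left ?_ h5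
            have : (0 : ℝ) ≤ N2 + 1 := by linarith
            gcongr
        _ = _ := by
            rw [mul_pow]
            ring
  have hm0 : (0 : ℝ) < 1 / (2 * m : ℝ) := by
    have : (1 : ℝ) ≤ m := by exact_mod_cast hm
    positivity
  have h6 := h0.rpow_const (p := 1 / (2 * m : ℝ)) (Or.inr hm0.le)
  rw [Real.zero_rpow hm0.ne'] at h6
  have h7 := (h6.const_mul C).div_const ε
  rw [mul_zero, zero_div] at h7
  exact h7

theorem t_CUT : S_COM → S_LIM → S_CHI → S_ROW → S_CUT := by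
  classical
  intro hCOM hLIM hCHI hROW d T0 κ ρ0 b θ hA hθ hθ2 hsum
  -- the constants
  obtain ⟨K, hK⟩ : ∃ K, K = ∑' z, κ z ^ 2 * ‖z‖ ^ θ := ⟨_, rfl⟩
  obtain ⟨N2, hN2⟩ : ∃ N2, N2 = ∑' z, κ z ^ 2 := ⟨_, rfl⟩
  have hK0 : 0 ≤ K := by
    rw [hK]
    exact tsum_nonneg fun z => mul_nonneg (sq_nonneg _) (Real.rpow_nonneg (norm_nonneg _) _)
  have hN0 : 0 ≤ N2 := by
    rw [hN2]
    exact tsum_nonneg fun z => sq_nonneg _
  obtain ⟨m, hm, hdm⟩ : ∃ m : ℕ, 1 ≤ m ∧ (d : ℝ) < θ * ((m - 1 : ℕ) : ℝ) := by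
    obtain ⟨n, hn⟩ := exists_nat_gt ((d : ℝ) / θ)
    refine ⟨n + 1, by omega, ?_⟩
    rw [Nat.add_sub_cancel]
    rw [div_lt_iff₀ hθ] at hn
    linarith
  obtain ⟨C, hC, hcom⟩ := hCOM m hm
  -- the cut-offs
  have hchi : ∀ R : ℕ, ∃ χ : (Fin d → ℤ) →₀ ℝ, 1 ≤ R → (∀ y, 0 ≤ χ y ∧ χ y ≤ 1) ∧
      (∀ y, ‖y‖ ≤ R → χ y = 1) ∧ (∀ y w, |χ y - χ w| ≤ ‖y - w‖ / R) ∧
      χ.support.card ≤ (4 * R + 1) ^ d := by
    intro R
    by_cases hR : 1 ≤ R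
    · obtain ⟨χ, hχ⟩ := hCHI d R hR
      exact ⟨χ, fun _ => hχ⟩
    · exact ⟨0, fun h => absurd h hR⟩
  choose χ hχ using hchi
  obtain ⟨a, ha⟩ : ∃ a : ℕ → (Fin d → ℤ) → (Fin d → ℤ) → ℝ,
      ∀ R y w, a R y w = (χ R y - χ R w) * κ (y - w) := ⟨_, fun _ _ _ => rfl⟩
  -- the probabilities
  have hprob : ∀ R : ℕ, 1 ≤ R → ∀ ε : ℝ, 0 < ε → (Ps d) {s | ¬ ∀ Λ, BdOn (a R) ε Λ s} ≤
      ENNReal.ofReal (C * (((R : ℝ) ^ (-θ) * (K + 1)) ^ (m - 1) *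
      (2 * (4 * (R : ℝ) + 1) ^ d * (N2 + 1))) ^ (1 / (2 * m : ℝ)) / ε) := by
    intro R hR ε hε
    obtain ⟨h1, h2, h3, h4⟩ := hχ R hR
    obtain ⟨r1, r2⟩ := hROW d R κ θ (χ R) hR hθ hθ2 hA.κsq hsum hA.κsymm h1 h3
    have hR0 : (0 : ℝ) < R := by exact_mod_cast hR
    have hRθ : (0 : ℝ) < (R : ℝ) ^ (-θ) := Real.rpow_pos_of_pos hR0 _
    refine hLIM d (a R) ε _ fun Λ => ?_
    refine hcom d Λ (a R) _ _ ε ?_ ?_ ?_ hε ?_ ?_
    · intro y w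
      rw [ha, ha]
      have : κ (w - y) = κ (y - w) := by
        rw [← hA.κsymm (y - w), neg_sub]
      rw [this]
      ring
    · positivity
    · positivity
    · intro y _
      simp only [ha]
      refine (r1 Λ y).trans ?_
      rw [← hK]
      exact mul_le_mul_of_nonneg_left (by linarith) hRθ.le
    · simp only [ha]
      refine (r2 Λ).trans ?_
      rw [← hN2]
      have h5 : ((χ R).support.card : ℝ) ≤ (4 * (R : ℝ) + 1) ^ d := by exact_mod_cast h4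
      have h6 : (0 : ℝ) ≤ (χ R).support.card := by positivity
      have h7 : 2 * ((χ R).support.card : ℝ) * N2 ≤ 2 * (4 * (R : ℝ) + 1) ^ d * N2 := by
        gcongr
      have h8 : (0 : ℝ) ≤ 2 * (4 * (R : ℝ) + 1) ^ d := by positivity
      nlinarith
  -- almost surely there are good radii
  have hae : ∀ᵐ s ∂(Ps d), ∀ k N : ℕ, ∃ R : ℕ, 1 ≤ R ∧ N ≤ R ∧
      ∀ Λ, BdOn (a R) (1 / ((k : ℝ) + 1)) Λ s := by
    rw [ae_all_iff]
    intro k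
    rw [ae_all_iff]
    intro N
    rw [ae_iff]
    have hk : (0 : ℝ) < 1 / ((k : ℝ) + 1) := by positivity
    have h1 : ∀ R : ℕ, 1 ≤ R → N ≤ R →
        (Ps d) {s | ¬ ∃ R : ℕ, 1 ≤ R ∧ N ≤ R ∧ ∀ Λ, BdOn (a R) (1 / ((k : ℝ) + 1)) Λ s} ≤
        ENNReal.ofReal (C * (((R : ℝ) ^ (-θ) * (K + 1)) ^ (m - 1) *
        (2 * (4 * (R : ℝ) + 1) ^ d * (N2 + 1))) ^ (1 / (2 * m : ℝ)) / (1 / ((k : ℝ) + 1))) := by
      intro R hR hN
      refine (measure_mono ?_).trans (hprob R hR _ hk)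
      intro s hs hs'
      exact hs ⟨R, hR, hN, hs'⟩
    have h2 := ENNReal.tendsto_ofReal (tends_p d m θ K N2 C (1 / ((k : ℝ) + 1)) hm hθ hdm hK0 hN0)
    rw [ENNReal.ofReal_zero] at h2
    refine le_antisymm (ge_of_tendsto h2 ?_) bot_le
    filter_upwards [eventually_ge_atTop (max 1 N)] with R hR
    exact h1 R ((le_max_left _ _).trans hR) ((le_max_right _ _).trans hR)
  filter_upwards [hae] with s hs
  intro ε hε F
  obtain ⟨k, hk⟩ := exists_nat_gt (2 / ε)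
  have hk1 : 1 / ((k : ℝ) + 1) ≤ ε / 2 := by
    have h1 : (0 : ℝ) < (k : ℝ) + 1 := by positivity
    rw [div_le_iff₀ h1]
    rw [div_lt_iff₀ hε] at hk
    nlinarith
  obtain ⟨N1, hN1⟩ : ∃ N1 : ℕ, ∀ y ∈ F, ‖y‖ ≤ N1 := by
    obtain ⟨n, hn⟩ := exists_nat_ge (∑ y ∈ F, ‖y‖)
    refine ⟨n, fun y hy => ?_⟩
    exact (Finset.single_le_sum (f := fun y : Fin d → ℤ => ‖y‖) (fun _ _ => norm_nonneg _) hy).trans hn
  have hb : 0 ≤ b := by
    have := hA.T0sum 0 ∅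
    simpa using this
  obtain ⟨N3, hN3⟩ := exists_nat_gt (2 * (|ρ0| * b) / ε)
  obtain ⟨R, hR1, hRN, hbd⟩ := hs k (max N1 (N3 + 1))
  obtain ⟨h1, h2, h3, -⟩ := hχ R hR1
  have hR0 : (0 : ℝ) < R := by exact_mod_cast hR1
  have hRb : |ρ0| * b / R ≤ ε / 2 := by
    have h4 : ((N3 : ℝ) + 1) ≤ R := by exact_mod_cast (le_max_right _ _).trans hRN
    rw [div_le_iff₀ hR0]
    rw [div_lt_iff₀ hε] at hN3
    nlinarith
  refine ⟨χ R, h1, fun y hy => h2 y ((hN1 y hy).trans ?_), fun Λ u v => ?_⟩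
  · exact_mod_cast (le_max_left _ _).trans hRN
  have e1 : ∑ y ∈ Λ, ∑ w ∈ Λ, (χ R y - χ R w) * Kf T0 κ s y w * (u y * v w) =
      ∑ y ∈ Λ, ∑ w ∈ Λ, (χ R y - χ R w) * T0 y w * (u y * v w) +
      ∑ y ∈ Λ, ∑ w ∈ Λ, a R y w * sg (s s(y, w)) * (u y * v w) := by
    rw [← Finset.sum_add_distrib]
    refine Finset.sum_congr rfl fun y _ => ?_
    rw [← Finset.sum_add_distrib]
    refine Finset.sum_congr rfl fun w _ => ?_
    rw [ha]
    unfold Kf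
    ring
  have hSu : 0 ≤ ∑ y ∈ Λ, u y ^ 2 := Finset.sum_nonneg fun _ _ => sq_nonneg _
  have hSv : 0 ≤ ∑ y ∈ Λ, v y ^ 2 := Finset.sum_nonneg fun _ _ => sq_nonneg _
  have e2 : |∑ y ∈ Λ, ∑ w ∈ Λ, (χ R y - χ R w) * T0 y w * (u y * v w)| ≤
      |ρ0| * b / R * (∑ y ∈ Λ, u y ^ 2 + ∑ y ∈ Λ, v y ^ 2) := by
    have h4 : ∀ y w, |(χ R y - χ R w) * T0 y w * (u y * v w)| ≤
        |ρ0| / R * (|T0 y w| * u y ^ 2 + |T0 w y| * v w ^ 2) := by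
      intro y w
      rw [abs_mul, abs_mul]
      have h5 : |χ R y - χ R w| * |T0 y w| ≤ |ρ0| / R * |T0 y w| := by
        by_cases h6 : ρ0 < ‖y - w‖
        · rw [hA.T0range y w h6]
          simp
        · push Not at h6
          refine mul_le_mul_of_nonneg_right ((h3 y w).trans ?_) (abs_nonneg _)
          exact div_le_div_of_nonneg_right (h6.trans (le_abs_self _)) hR0.le
      have h6 : |u y * v w| ≤ u y ^ 2 + v w ^ 2 := by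
        rw [abs_mul]
        have := two_mul_le_add_sq |u y| |v w|
        rw [sq_abs, sq_abs] at this
        have h7 := mul_nonneg (abs_nonneg (u y)) (abs_nonneg (v w))
        linarith
      have h7 : (0 : ℝ) ≤ |ρ0| / R * |T0 y w| := by positivity
      calc |χ R y - χ R w| * |T0 y w| * |u y * v w| ≤ |ρ0| / R * |T0 y w| * (u y ^ 2 + v w ^ 2) :=
            mul_le_mul h5 h6 (abs_nonneg _) h7
        _ = _ := by
            rw [hA.T0symm w y]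
            ring
    have h8 : |∑ y ∈ Λ, ∑ w ∈ Λ, (χ R y - χ R w) * T0 y w * (u y * v w)| ≤
        ∑ y ∈ Λ, ∑ w ∈ Λ, |ρ0| / R * (|T0 y w| * u y ^ 2 + |T0 w y| * v w ^ 2) := by
      refine (Finset.abs_sum_le_sum_abs _ _).trans (Finset.sum_le_sum fun y _ => ?_)
      exact (Finset.abs_sum_le_sum_abs _ _).trans (Finset.sum_le_sum fun w _ => h4 y w)
    refine h8.trans ?_
    have h9 : ∑ y ∈ Λ, ∑ w ∈ Λ, |ρ0| / R * (|T0 y w| * u y ^ 2 + |T0 w y| * v w ^ 2) =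
        |ρ0| / R * (∑ y ∈ Λ, (∑ w ∈ Λ, |T0 y w|) * u y ^ 2 +
          ∑ w ∈ Λ, (∑ y ∈ Λ, |T0 w y|) * v w ^ 2) := by
      simp only [← Finset.mul_sum, Finset.sum_add_distrib]
      congr 2
      · exact Finset.sum_congr rfl fun y _ => (Finset.sum_mul _ _ _).symm
      · rw [Finset.sum_comm]
        exact Finset.sum_congr rfl fun w _ => (Finset.sum_mul _ _ _).symm
    rw [h9]
    have h10 : ∀ f : (Fin d → ℤ) → ℝ, ∑ y ∈ Λ, (∑ w ∈ Λ, |T0 y w|) * f y ^ 2 ≤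
        b * ∑ y ∈ Λ, f y ^ 2 := by
      intro f
      rw [Finset.mul_sum]
      exact Finset.sum_le_sum fun y _ => mul_le_mul_of_nonneg_right (hA.T0sum y Λ) (sq_nonneg _)
    have h11 := h10 u
    have h12 := h10 v
    have h13 : (0 : ℝ) ≤ |ρ0| / R := by positivity
    calc |ρ0| / R * (∑ y ∈ Λ, (∑ w ∈ Λ, |T0 y w|) * u y ^ 2 +
          ∑ w ∈ Λ, (∑ y ∈ Λ, |T0 w y|) * v w ^ 2)
        ≤ |ρ0| / R * (b * ∑ y ∈ Λ, u y ^ 2 + b * ∑ y ∈ Λ, v y ^ 2) :=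
          mul_le_mul_of_nonneg_left (add_le_add h11 h12) h13
      _ = _ := by ring
  rw [e1]
  have h14 := hbd Λ u v
  have h15 : 0 ≤ ∑ y ∈ Λ, u y ^ 2 + ∑ y ∈ Λ, v y ^ 2 := add_nonneg hSu hSv
  calc |∑ y ∈ Λ, ∑ w ∈ Λ, (χ R y - χ R w) * T0 y w * (u y * v w) +
      ∑ y ∈ Λ, ∑ w ∈ Λ, a R y w * sg (s s(y, w)) * (u y * v w)|
      ≤ |ρ0| * b / R * (∑ y ∈ Λ, u y ^ 2 + ∑ y ∈ Λ, v y ^ 2) +
        1 / ((k : ℝ) + 1) * (∑ y ∈ Λ, u y ^ 2 + ∑ y ∈ Λ, v y ^ 2) :=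
        (abs_add_le _ _).trans (add_le_add e2 h14)
    _ ≤ ε / 2 * (∑ y ∈ Λ, u y ^ 2 + ∑ y ∈ Λ, v y ^ 2) +
        ε / 2 * (∑ y ∈ Λ, u y ^ 2 + ∑ y ∈ Λ, v y ^ 2) :=
        add_le_add (mul_le_mul_of_nonneg_right hRb h15) (mul_le_mul_of_nonneg_right hk1 h15)
    _ = _ := by ring

end Pool.Agent.Q277.LR
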