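import Pool.Agent.Q237.LR.Stm

/-!
# Project LR (helper237): job SGF, arbitrary finite index types
-/

set_option autoImplicit false

namespace Pool.Agent.Q277.LR

open MeasureTheory ProbabilityTheory H10PL
open Pool.Agent.H999R5.Inj (GX gm qf)
open Pool.Agent.Q237.LR
open scoped Matrix

theorem sum_submatrix {I J N : Type} [Fintype I] (A : I → Matrix J J ℝ) (e : N → J) :
    (∑ i, A i).submatrix e e = ∑ i, (A i).submatrix e e := by
  ext a b
  simp [Matrix.sum_apply]

theorem dot_submatrix {J N : Type} [Fintype J] [Fintype N] (e : N ≃ J) (M : Matrix J J ℝ)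
    (x : J → ℝ) : (x ∘ e) ⬝ᵥ ((M.submatrix e e) *ᵥ (x ∘ e)) = x ⬝ᵥ (M *ᵥ x) := by
  simp only [dotProduct, Matrix.mulVec, Matrix.submatrix_apply, Function.comp_apply]
  rw [← Equiv.sum_comp e fun i => x i * ∑ j, M i j * x j]
  refine Finset.sum_congr rfl fun i _ => ?_
  rw [← Equiv.sum_comp e fun j => M (e i) j * x j]

theorem t_SGF : S_SGN → S_SGF := by
  classical
  intro h m hm
  obtain ⟨C, hC, hmain⟩ := h m hm
  refine ⟨C, hC, fun I J _ _ _ _ A c T hs hc hT hpsd htr => ?_⟩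
  obtain ⟨eI⟩ : Nonempty (Fin (Fintype.card I) ≃ I) := ⟨(Fintype.equivFin I).symm⟩
  obtain ⟨eJ⟩ : Nonempty (Fin (Fintype.card J) ≃ J) := ⟨(Fintype.equivFin J).symm⟩
  have hsum : ∑ i, (A (eI i)).submatrix eJ eJ * (A (eI i)).submatrix eJ eJ =
      (∑ i, A i * A i).submatrix eJ eJ := by
    rw [sum_submatrix, ← Equiv.sum_comp eI fun i => (A i * A i).submatrix eJ eJ]
    refine Finset.sum_congr rfl fun i _ => ?_
    rw [Matrix.submatrix_mul_equiv]
  obtain ⟨Φ, h1, h2, h3⟩ := hmain (Fintype.card I) (Fintype.card J)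
    (fun i => (A (eI i)).submatrix eJ eJ) c T (fun i => (hs (eI i)).submatrix _) hc hT (by
      rw [hsum]
      have h4 : c • (1 : Matrix (Fin (Fintype.card J)) (Fin (Fintype.card J)) ℝ) -
          (∑ i, A i * A i).submatrix eJ eJ =
          (c • (1 : Matrix J J ℝ) - ∑ i, A i * A i).submatrix eJ eJ := by
        rw [Matrix.submatrix_sub, Matrix.submatrix_smul, Pi.sub_apply, Pi.sub_apply, Pi.smul_apply,
          Pi.smul_apply, Matrix.submatrix_one_equiv]
      rw [h4]
      exact hpsd.submatrix _) (by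
      rw [hsum]
      refine le_trans (le_of_eq ?_) htr
      unfold Matrix.trace
      simp only [Matrix.diag_apply, Matrix.submatrix_apply]
      exact Equiv.sum_comp eJ fun j => (∑ i, A i * A i) j j)
  refine ⟨fun ε => Φ (ε ∘ eI), fun ε => h1 _, fun ε x => ?_, ?_⟩
  · have h4 := h2 (ε ∘ eI) (x ∘ eJ)
    have h5 : ∑ i, sg ((ε ∘ eI) i) • (A (eI i)).submatrix eJ eJ =
        (∑ i, sg (ε i) • A i).submatrix eJ eJ := by
      rw [sum_submatrix, ← Equiv.sum_comp eI fun i => (sg (ε i) • A i).submatrix eJ eJ]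
      rfl
    rw [h5] at h4
    unfold qf at h4
    rw [dot_submatrix] at h4
    have h6 : (x ∘ eJ) ⬝ᵥ (x ∘ eJ) = x ⬝ᵥ x := by
      simp only [dotProduct, Function.comp_apply]
      exact Equiv.sum_comp eJ fun j => x j * x j
    rw [h6] at h4
    exact h4
  · have h4 : ∑ ε : I → Bool, Φ (ε ∘ eI) = ∑ ε, Φ ε := by
      rw [← Equiv.sum_comp (Equiv.arrowCongr eI.symm (Equiv.refl Bool)) Φ]
      refine Finset.sum_congr rfl fun ε _ => ?_
      congr 1
    rw [h4]
    exact h3

end Pool.Agent.Q277.LR
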